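import Pool.Agent.TH359.Inf.Main

set_option autoImplicit false

open Pool.Agent.TH359.Inf

namespace Pool.Agent.Results.MP_ad39f2_ag.MultipleLine

/-- The answer to Q1 is negative. For all `t ≥ 0` and `a ≥ 7 t + 4` there is a consistent weighted
configuration `W` of infinitely near points of `ℙ²` such that, with `d = 3 a + t`,

* `d` exceeds the sum of the three largest multiplicities by at least `a + t - 2 ≥ 2`;
* for every (not only for a general) weighted configuration `W'` with the same proximities and the
  same multiplicities, the expected dimension `max {0, (d+2 choose 2) - ∑ (r_p + 1 choose 2)}` is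
  `0`, while the dimension of `H⁰(ℙ², 𝓗(d))` is at least `t + 1`.

The multiplicities are `a + 1, a` and `4 a² + a - 1` times `1`; the third to the `(a+2)`-th point
are proximate to the second one and the third point is also proximate to the first one. The
`3 a`-fold line through the first two points, plus any curve of degree `t`, lies in the system. -/
theorem result (t a : ℕ) (ha : 7 * t + 4 ≤ a) :
    ∃ W : WConf, W.Consistent ∧
      (∀ T ⊆ W.pts, T.card ≤ 3 → ∑ p ∈ T, W.mult p + (a + t - 2) ≤ 3 * a + t) ∧
      ∀ W' : WConf, W.SameData W' →
        expDim W' (3 * a + t) = 0 ∧ t + 1 ≤ Module.finrank ℂ (H0 W' (3 * a + t)) := by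
  have ha4 : 4 ≤ a := by omega
  refine ⟨W0 a, consistent_W0 a ha4, ?_, ?_⟩
  · intro T hT hc
    have := three_largest a ha4 T hT hc
    omega
  · intro W' h
    exact ⟨expDim_eq_zero ha W' h, le_finrank ha4 W' h⟩

end Pool.Agent.Results.MP_ad39f2_ag.MultipleLine
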